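import Pool.Agent.K3h46.HP.Stm3

/-!
# HP brick SM: exterior powers of the self power
-/

set_option autoImplicit false

open Finset

namespace Pool.Agent.K3h57.HP

open Pool.Agent.K3h46.HP

/-- the numbering of all the pairs by numberings of the blocks -/
def phi {m k : ℕ} (e : Fin m → (Fin k × Fin 2 ≃ Fin (k * 2))) :
    Fin (m * k) × Fin 2 ≃ Fin (m * (k * 2)) :=
  (((finProdFinEquiv.symm : Fin (m * k) ≃ Fin m × Fin k).prodCongr (Equiv.refl (Fin 2))).trans
    (Equiv.prodAssoc _ _ _)).trans ((Equiv.prodCongrRight e).trans finProdFinEquiv)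

theorem phi_apply {m k : ℕ} (e : Fin m → (Fin k × Fin 2 ≃ Fin (k * 2))) (j : Fin m) (i : Fin k)
    (s : Fin 2) : phi e (finProdFinEquiv (j, i), s) = finProdFinEquiv (j, e j (i, s)) := by
  simp [phi]

theorem t_SM : StmSM := by
  intro X w k m h
  -- the pullback of the exterior power
  have h1 : ∀ G : Fin (m * (k * 2)) ≃ Fin (m * k * 2),
      ∑ e : Fin m → (Fin k × Fin 2 ≃ Fin (k * 2)),
        ∏ l : Fin (m * k), X.edge w (G (phi e (l, 0))) (G (phi e (l, 1))) = 0 := by
    intro G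
    have h2 : X.pull G (X.extPower (X.selfPower w k) m) = 0 := by rw [h, map_zero]
    rw [← h2]
    unfold Powers.extPower Powers.selfPower
    rw [map_prod]
    have h3 : ∀ j : Fin m, X.pull (G : Fin (m * (k * 2)) → Fin (m * k * 2))
        (X.pull (fun i => finProdFinEquiv (j, i))
          (∑ e : Fin k × Fin 2 ≃ Fin (k * 2), ∏ i : Fin k, X.edge w (e (i, 0)) (e (i, 1)))) =
        ∑ e : Fin k × Fin 2 ≃ Fin (k * 2), ∏ i : Fin k,
          X.edge w (G (finProdFinEquiv (j, e (i, 0)))) (G (finProdFinEquiv (j, e (i, 1)))) := by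
      intro j
      rw [X.pull_comp, map_sum]
      refine Finset.sum_congr rfl fun e _ => ?_
      rw [map_prod]
      refine Finset.prod_congr rfl fun i _ => ?_
      rw [pull_edge]
    rw [Finset.prod_congr rfl fun j _ => h3 j, Finset.prod_univ_sum, Fintype.piFinset_univ]
    refine Finset.sum_congr rfl fun e _ => ?_
    rw [← Fintype.prod_prod_type' (f := fun (j : Fin m) (i : Fin k) =>
      X.edge w (G (finProdFinEquiv (j, e j (i, 0)))) (G (finProdFinEquiv (j, e j (i, 1)))))]
    refine (Fintype.prod_equiv finProdFinEquiv _ _ fun x => ?_).symm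
    obtain ⟨j, i⟩ := x
    rw [phi_apply, phi_apply]
  have h4 : ∑ G : Fin (m * (k * 2)) ≃ Fin (m * k * 2),
      ∑ e : Fin m → (Fin k × Fin 2 ≃ Fin (k * 2)),
        ∏ l : Fin (m * k), X.edge w (G (phi e (l, 0))) (G (phi e (l, 1))) = 0 :=
    Finset.sum_eq_zero fun G _ => h1 G
  rw [Finset.sum_comm] at h4
  have h5 : ∀ e : Fin m → (Fin k × Fin 2 ≃ Fin (k * 2)),
      ∑ G : Fin (m * (k * 2)) ≃ Fin (m * k * 2),
        ∏ l : Fin (m * k), X.edge w (G (phi e (l, 0))) (G (phi e (l, 1))) =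
      X.selfPower w (m * k) := by
    intro e
    unfold Powers.selfPower
    refine Fintype.sum_equiv (Equiv.equivCongr (phi e).symm (Equiv.refl _)) _ _ fun G => ?_
    refine Finset.prod_congr rfl fun l _ => ?_
    simp
  rw [Finset.sum_congr rfl fun e _ => h5 e, Finset.sum_const, Finset.card_univ] at h4
  rw [← Nat.cast_smul_eq_nsmul ℚ] at h4
  rcases smul_eq_zero.1 h4 with h6 | h6
  · exfalso
    have h7 : Fintype.card (Fin m → (Fin k × Fin 2 ≃ Fin (k * 2))) ≠ 0 := by
      have : Nonempty (Fin m → (Fin k × Fin 2 ≃ Fin (k * 2))) := ⟨fun _ => finProdFinEquiv⟩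
      exact Fintype.card_ne_zero
    exact h7 (by exact_mod_cast h6)
  · exact h6

end Pool.Agent.K3h57.HP
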